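import Mathlib
import Pool.Agent.H33.FinUnb2

set_option autoImplicit false

open Set Cardinal Pool.Agent.H33.FinUnb

namespace Pool.Agent.Results.MP_820b44_gt.SmallFactor

/-- The property `S₁(Γ, O)`; covers do not contain the whole space. -/
def S1GammaO (Z : Type) [TopologicalSpace Z] : Prop :=
  ∀ 𝒰 : ℕ → Set (Set Z), (∀ n, GammaCover (𝒰 n) ∧ Set.univ ∉ 𝒰 n) →
    ∃ U : ℕ → Set Z, (∀ n, U n ∈ 𝒰 n) ∧ ⋃ n, U n = Set.univ

theorem result (A : Set C) (Y : Type) [TopologicalSpace Y] [T1Space Y] (hY : GammaProp Y)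
    (h : #A < covM ∨ (#A < gw ∧ #A < dom)) : S1GammaOmega (A × Y) ∧ S1GammaO (A × Y) := by
  have : S1GammaOmega (A × Y) := (prel_prod A).2 (h.elim (small_cov (gam_of hY))
    fun h => small_gw (gam_of hY) h.1 (of_dom h.2))
  refine ⟨this, fun 𝒰 hU => ?_⟩
  obtain ⟨U, a, b⟩ := this 𝒰 fun n => (hU n).1
  exact ⟨U, a, b.2.1⟩

end Pool.Agent.Results.MP_820b44_gt.SmallFactor
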